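import Pool.Agent.W46.KK.Final

/-!
# Progressions with common differences in an arbitrary set: covering numbers
-/

set_option autoImplicit false

open Finset

namespace Pool.Agent.Q261.AP

open Pool.Agent.W46.KK

/-- `B` contains a `k`-term progression with every common difference in `R`. -/
def Prog {n : ℕ} (k : ℕ) (R B : Set (EuclideanSpace ℝ (Fin n))) : Prop :=
  ∀ r ∈ R, ∃ a : EuclideanSpace ℝ (Fin n), ∀ j : ℕ, j < k → a + (j : ℝ) • r ∈ B

/-- `B` is covered by `N` sets of diameter at most `δ`. -/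
def Covers {n : ℕ} (δ : ℝ) (B : Set (EuclideanSpace ℝ (Fin n))) (N : ℕ) : Prop :=
  ∃ U : Fin N → Set (EuclideanSpace ℝ (Fin n)),
    (∀ i, ∀ x ∈ U i, ∀ y ∈ U i, dist x y ≤ δ) ∧ B ⊆ ⋃ i, U i

/-- Separated sets of common differences. -/
theorem packing {c : ℝ} (h : SD c) (hc : 0 ≤ c) :
    ∃ k : ℕ, 2 ≤ k ∧ ∀ n : ℕ, ∃ C : ℝ, 0 < C ∧ ∀ R B : Set (EuclideanSpace ℝ (Fin n)), Prog k R B →
      ∀ δ : ℝ, 0 < δ → ∀ N : ℕ, Covers δ B N →
        ∀ V : Finset (Fin n → ℝ), (∀ v ∈ V, (WithLp.toLp 2 v : EuclideanSpace ℝ (Fin n)) ∈ R) →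
          (∀ v ∈ V, ∀ w ∈ V, v ≠ w → ∃ i, 2 * δ ≤ |v i - w i|) →
            (V.card : ℝ) ≤ C * (N : ℝ) ^ c := by
  classical
  obtain ⟨S, hS⟩ := h
  set sl : ℚ → ℚ := fun r => r / (1 + r) with hsl
  set η : ℕ := ∏ r ∈ S, (sl r).den with hη
  have hη1 : 1 ≤ η := by
    rw [hη]
    exact Finset.one_le_prod' fun r _ => (sl r).den_pos
  have hint : ∀ r ∈ S, ∃ z : ℤ, (z : ℚ) = sl r * η := by
    intro r hr
    obtain ⟨m, hm⟩ := Finset.dvd_prod_of_mem (fun r => (sl r).den) hr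
    refine ⟨(sl r).num * m, ?_⟩
    rw [← hη] at hm
    have h1 : (η : ℚ) = (sl r).den * m := by exact_mod_cast hm
    rw [h1, ← mul_assoc, Rat.mul_den_eq_num]
    push_cast
    ring
  choose! z hz using hint
  set t₀ : ℕ := ∑ r ∈ S, (z r).natAbs with ht₀
  have hle : ∀ r ∈ S, (z r).natAbs ≤ t₀ := fun r hr => by
    rw [ht₀]
    exact Finset.single_le_sum (f := fun r => (z r).natAbs) (fun _ _ => Nat.zero_le _) hr
  set k : ℕ := 2 * t₀ + η + 1 with hk
  have hjr : ∀ r ∈ S, ∃ j : ℕ, j < k ∧ (j : ℝ) = (t₀ : ℝ) + (r : ℝ) / (1 + r) * (η : ℝ) := by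
    intro r hr
    have h1 := hle r hr
    refine ⟨((t₀ : ℤ) + z r).toNat, by omega, ?_⟩
    have h2 : ((((t₀ : ℤ) + z r).toNat : ℤ)) = (t₀ : ℤ) + z r := Int.toNat_of_nonneg (by omega)
    have h3 : ((((t₀ : ℤ) + z r).toNat : ℝ)) = (t₀ : ℝ) + (z r : ℝ) := by exact_mod_cast h2
    rw [h3]
    have h4 : ((z r : ℚ) : ℝ) = ((sl r * η : ℚ) : ℝ) := by rw [hz r hr]
    push_cast at h4
    rw [h4, hsl]
    push_cast
    ring
  have hηR : (1 : ℝ) ≤ (η : ℝ) := by exact_mod_cast hη1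
  have hηpos : (0 : ℝ) < (η : ℝ) := by linarith
  refine ⟨k, by omega, fun n => ?_⟩
  obtain ⟨C, hC1, hcore⟩ := core hS hc n
  set D : ℝ := C * 3 ^ n with hD
  have hDpos : 0 < D := by positivity
  refine ⟨D ^ c, by positivity, ?_⟩
  intro R B hB δ hδ N hN V hV hsep
  obtain ⟨U, hU, hcov⟩ := hN
  -- base points
  have hex : ∀ v : Fin n → ℝ, ∃ a : Fin n → ℝ, (v ∈ V) →
      ∀ j : ℕ, j < k → WithLp.toLp 2 (fun i => a i + (j : ℝ) * v i) ∈ B := by
    intro v
    by_cases hv : v ∈ V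
    · obtain ⟨a, ha⟩ := hB (WithLp.toLp 2 v) (hV v hv)
      refine ⟨fun i => a i, fun _ j hj => ?_⟩
      convert ha j hj using 1
      ext i
      simp
    · exact ⟨0, fun h' => absurd h' hv⟩
  choose p hp using hex
  have hNc : ∀ j : ℕ, j < k → ((V.image (pos δ p j)).card : ℝ) ≤ 3 ^ n * (N : ℝ) := by
    intro j hj
    have h1 := card_cells (d := n) hδ (fun i => (WithLp.toLp 2) ⁻¹' (U i))
      (fun i x hx y hy l => by
        have h2 := hU i _ hx _ hy
        refine le_trans ?_ h2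
        rw [EuclideanSpace.dist_eq]
        have h3 : dist (x l) (y l) ^ 2 ≤ ∑ i, dist (x i) (y i) ^ 2 :=
          Finset.single_le_sum (f := fun i => dist (x i) (y i) ^ 2) (fun _ _ => sq_nonneg _)
            (Finset.mem_univ l)
        rw [← Real.dist_eq]
        exact Real.le_sqrt_of_sq_le h3)
      V (fun v i => p v i + (j : ℝ) * v i) (fun v hv => by
        have h2 := hp v hv j hj
        have h3 := hcov h2
        rw [Set.mem_iUnion] at h3
        exact h3)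
    rw [Fintype.card_fin] at h1
    exact_mod_cast h1
  have key := hcore δ hδ V p t₀ η hηpos (fun v hv w hw hne => by
      obtain ⟨i, hi⟩ := hsep v hv w hw hne
      refine ⟨i, le_trans ?_ hi⟩
      exact div_le_self (by positivity) hηR)
    (3 ^ n * (N : ℝ))
    (by
      have := hNc (t₀ + η) (by omega)
      push_cast at this
      exact this)
    (by
      intro r hr
      obtain ⟨j, hj, hjr'⟩ := hjr r hr
      have := hNc j hj
      rwa [hjr'] at this)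
  refine key.trans (le_of_eq ?_)
  rw [← mul_assoc, ← hD, Real.mul_rpow hDpos.le (Nat.cast_nonneg _)]

/-- A ball of radius `K δ` is covered by a bounded number of sets of diameter at most `δ`. -/
theorem ball_covers (n : ℕ) (K : ℝ) : ∃ m : ℕ, ∀ (x₀ : EuclideanSpace ℝ (Fin n)) (δ : ℝ), 0 < δ →
    Covers δ (Metric.closedBall x₀ (K * δ)) m := by
  obtain ⟨t, ht, hcov⟩ := Metric.totallyBounded_iff.mp
    (isCompact_closedBall (0 : EuclideanSpace ℝ (Fin n)) K).totallyBounded (1 / 2) (by norm_num)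
  obtain ⟨m, f, hf⟩ := ht.fin_param
  refine ⟨m, fun x₀ δ hδ => ?_⟩
  let U : Fin m → Set (EuclideanSpace ℝ (Fin n)) := fun i =>
    {x : EuclideanSpace ℝ (Fin n) | dist (δ⁻¹ • (x - x₀)) (f i) < 1 / 2}
  refine ⟨U, ?_, ?_⟩
  · intro i x hx y hy
    have h1 : dist (δ⁻¹ • (x - x₀)) (f i) < 1 / 2 := hx
    have h2 : dist (f i) (δ⁻¹ • (y - x₀)) < 1 / 2 := by rw [dist_comm]; exact hy
    have h3 := dist_triangle (δ⁻¹ • (x - x₀)) (f i) (δ⁻¹ • (y - x₀))
    have h4 : dist (δ⁻¹ • (x - x₀)) (δ⁻¹ • (y - x₀)) = δ⁻¹ * dist x y := by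
      rw [dist_smul₀, Real.norm_of_nonneg (by positivity), dist_sub_right]
    rw [h4] at h3
    have h5 : δ⁻¹ * dist x y ≤ 1 := by linarith
    have h6 := mul_le_mul_of_nonneg_left h5 hδ.le
    rwa [← mul_assoc, mul_inv_cancel₀ hδ.ne', one_mul, mul_one] at h6
  · intro x hx
    have h1 : δ⁻¹ • (x - x₀) ∈ Metric.closedBall (0 : EuclideanSpace ℝ (Fin n)) K := by
      rw [mem_closedBall_zero_iff, norm_smul, Real.norm_of_nonneg (by positivity),
        ← dist_eq_norm]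
      have h2 := Metric.mem_closedBall.mp hx
      have h3 := mul_le_mul_of_nonneg_left h2 (inv_pos.mpr hδ).le
      refine h3.trans (le_of_eq ?_)
      field_simp
    have h2 := hcov h1
    rw [Set.mem_iUnion₂] at h2
    obtain ⟨y, hy, hxy⟩ := h2
    rw [← hf.2] at hy
    obtain ⟨i, rfl⟩ := hy
    exact Set.mem_iUnion.mpr ⟨i, hxy⟩

theorem covers_iUnion {n : ℕ} {δ : ℝ} {ι : Type} (V : Finset ι)
    (A : ι → Set (EuclideanSpace ℝ (Fin n))) (m : ℕ) (h : ∀ v ∈ V, Covers δ (A v) m)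
    {B : Set (EuclideanSpace ℝ (Fin n))} (hB : B ⊆ ⋃ v ∈ V, A v) : Covers δ B (V.card * m) := by
  classical
  choose! U hU1 hU2 using h
  set e := V.equivFin
  refine ⟨fun i => U (e.symm (finProdFinEquiv.symm i).1) (finProdFinEquiv.symm i).2, ?_, ?_⟩
  · intro i x hx y hy
    exact hU1 _ (e.symm _).2 _ x hx y hy
  · intro x hx
    have h1 := hB hx
    rw [Set.mem_iUnion₂] at h1
    obtain ⟨v, hv, hxv⟩ := h1
    have h2 := hU2 v hv hxv
    rw [Set.mem_iUnion] at h2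
    obtain ⟨j, hj⟩ := h2
    rw [Set.mem_iUnion]
    refine ⟨finProdFinEquiv (e ⟨v, hv⟩, j), ?_⟩
    simp only [Equiv.symm_apply_apply]
    exact hj

/-- **Covering numbers.** -/
theorem covering {c : ℝ} (h : SD c) (hc : 0 ≤ c) :
    ∃ k : ℕ, 2 ≤ k ∧ ∀ n : ℕ, ∃ C : ℝ, 0 < C ∧ ∀ R B : Set (EuclideanSpace ℝ (Fin n)), Prog k R B →
      ∀ δ : ℝ, 0 < δ → ∀ N : ℕ, Covers δ B N →
        ∃ M : ℕ, Covers δ R M ∧ (M : ℝ) ≤ C * (N : ℝ) ^ c := by
  classical
  obtain ⟨k, hk, hk2⟩ := packing h hc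
  refine ⟨k, hk, fun n => ?_⟩
  obtain ⟨C, hC, hpack⟩ := hk2 n
  obtain ⟨m, hm⟩ := ball_covers n (2 * n)
  refine ⟨C * (m + 1), by positivity, fun R B hB δ hδ N hN => ?_⟩
  set P : Finset (Fin n → ℝ) → Prop := fun V =>
    (∀ v ∈ V, (WithLp.toLp 2 v : EuclideanSpace ℝ (Fin n)) ∈ R) ∧
      (∀ v ∈ V, ∀ w ∈ V, v ≠ w → ∃ i, 2 * δ ≤ |v i - w i|) with hP
  have hbd : ∀ V, P V → V.card ≤ ⌊C * (N : ℝ) ^ c⌋₊ := fun V hV =>
    Nat.le_floor (hpack R B hB δ hδ N hN V hV.1 hV.2)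
  -- a separated set of maximal size
  obtain ⟨V, hV, hmax⟩ : ∃ V, P V ∧ ∀ W, P W → W.card ≤ V.card := by
    have hex : ∃ s : ℕ, ∃ V, P V ∧ V.card = s := ⟨0, ∅, ⟨by simp, by simp⟩, rfl⟩
    have hb : ∀ s : ℕ, (∃ V, P V ∧ V.card = s) → s ≤ ⌊C * (N : ℝ) ^ c⌋₊ := by
      rintro s ⟨V, hV, rfl⟩
      exact hbd V hV
    obtain ⟨V, hV, hVc⟩ := Nat.findGreatest_spec (P := fun s => ∃ V, P V ∧ V.card = s)
      (hb 0 ⟨∅, ⟨by simp, by simp⟩, rfl⟩) ⟨∅, ⟨by simp, by simp⟩, rfl⟩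
    refine ⟨V, hV, fun W hW => ?_⟩
    rw [hVc]
    exact Nat.le_findGreatest (hbd W hW) ⟨W, hW, rfl⟩
  have hnear : R ⊆ ⋃ v ∈ V, Metric.closedBall (WithLp.toLp 2 v : EuclideanSpace ℝ (Fin n))
      ((2 * n) * δ) := by
    intro r hr
    by_contra hcon
    rw [Set.mem_iUnion₂] at hcon
    push Not at hcon
    have hsep : ∀ v ∈ V, ∃ i, 2 * δ ≤ |r i - v i| := by
      intro v hv
      by_contra hno
      push Not at hno
      apply hcon v hv
      rw [Metric.mem_closedBall, EuclideanSpace.dist_eq]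
      refine Real.sqrt_le_iff.mpr ⟨by positivity, ?_⟩
      have h1 : ∀ i, dist (r i) ((WithLp.toLp 2 v : EuclideanSpace ℝ (Fin n)) i) ^ 2
          ≤ (2 * δ) ^ 2 := by
        intro i
        rw [Real.dist_eq]
        exact pow_le_pow_left₀ (abs_nonneg _) (hno i).le 2
      calc ∑ i, dist (r i) ((WithLp.toLp 2 v : EuclideanSpace ℝ (Fin n)) i) ^ 2
          ≤ ∑ _i : Fin n, (2 * δ) ^ 2 := Finset.sum_le_sum fun i _ => h1 i
        _ = n * (2 * δ) ^ 2 := by simp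
        _ ≤ (2 * n * δ) ^ 2 := by
            rcases Nat.eq_zero_or_pos n with h0 | h0
            · subst h0; simp
            · have : (1 : ℝ) ≤ n := by exact_mod_cast h0
              nlinarith [sq_nonneg (2 * δ), mul_nonneg (by linarith : (0:ℝ) ≤ n - 1)
                (by positivity : (0:ℝ) ≤ (n : ℝ) * (2 * δ) ^ 2)]
    have hnot : (fun i => r i) ∉ V := by
      intro hmem
      obtain ⟨i, hi⟩ := hsep _ hmem
      simp only [sub_self, abs_zero] at hi
      linarith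
    have hW : P (insert (fun i => r i) V) := by
      refine ⟨?_, ?_⟩
      · intro v hv
        rcases Finset.mem_insert.mp hv with rfl | hv
        · exact hr
        · exact hV.1 v hv
      · intro v hv w hw hne
        rcases Finset.mem_insert.mp hv with rfl | hv <;> rcases Finset.mem_insert.mp hw with rfl | hw
        · exact absurd rfl hne
        · exact hsep w hw
        · obtain ⟨i, hi⟩ := hsep v hv
          exact ⟨i, by rw [abs_sub_comm]; exact hi⟩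
        · exact hV.2 v hv w hw hne
    have h1 := hmax _ hW
    rw [Finset.card_insert_of_notMem hnot] at h1
    omega
  refine ⟨V.card * m, covers_iUnion V _ m (fun v _ => hm _ δ hδ) hnear, ?_⟩
  have h1 := hpack R B hB δ hδ N hN V hV.1 hV.2
  push_cast
  have h2 : (0 : ℝ) ≤ C * (N : ℝ) ^ c := by positivity
  calc (V.card : ℝ) * m ≤ (C * (N : ℝ) ^ c) * (m + 1) :=
        mul_le_mul h1 (by linarith) (by positivity) h2
    _ = C * (m + 1) * (N : ℝ) ^ c := by ring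

end Pool.Agent.Q261.AP
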