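import Pool.Agent.Q261.AP.Cover

/-!
# Progressions with common differences in an arbitrary set: dimensions
-/

set_option autoImplicit false

open Finset Filter Topology MeasureTheory

namespace Pool.Agent.Q261.AP

open Pool.Agent.W46.KK

/-- The lower Minkowski dimension of a bounded set. -/
noncomputable def lowerMinkowski {n : ℕ} (B : Set (EuclideanSpace ℝ (Fin n))) : EReal :=
  liminf (fun δ : ℝ => ((Real.log (coverNum B δ) / Real.log (1 / δ) : ℝ) : EReal)) (𝓝[>] 0)

/-- The packing dimension (modified upper Minkowski dimension) of a set. -/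
noncomputable def packingDim {n : ℕ} (B : Set (EuclideanSpace ℝ (Fin n))) : EReal :=
  ⨅ (A : ℕ → Set (EuclideanSpace ℝ (Fin n))) (_ : ∀ i, Bornology.IsBounded (A i))
    (_ : B ⊆ ⋃ i, A i), ⨆ i, upperMinkowski (A i)

theorem coverNum_eq {n : ℕ} (B : Set (EuclideanSpace ℝ (Fin n))) (δ : ℝ) :
    coverNum B δ = sInf {N | Covers δ B N} := rfl

theorem covers_coverNum {n : ℕ} {B : Set (EuclideanSpace ℝ (Fin n))} (hB : Bornology.IsBounded B)
    {δ : ℝ} (hδ : 0 < δ) : Covers δ B (coverNum B δ) :=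
  Nat.sInf_mem (cover_nonempty hB hδ)

theorem coverNum_le {n : ℕ} {B : Set (EuclideanSpace ℝ (Fin n))} {δ : ℝ} {N : ℕ}
    (h : Covers δ B N) : coverNum B δ ≤ N := Nat.sInf_le h

theorem Covers.mono {n : ℕ} {A B : Set (EuclideanSpace ℝ (Fin n))} {δ : ℝ} {N : ℕ}
    (h : Covers δ B N) (hAB : A ⊆ B) : Covers δ A N := by
  obtain ⟨U, h1, h2⟩ := h
  exact ⟨U, h1, hAB.trans h2⟩

theorem coverNum_mono {n : ℕ} {A B : Set (EuclideanSpace ℝ (Fin n))} (hB : Bornology.IsBounded B)
    (hAB : A ⊆ B) {δ : ℝ} (hδ : 0 < δ) : coverNum A δ ≤ coverNum B δ :=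
  coverNum_le ((covers_coverNum hB hδ).mono hAB)

theorem Covers.union {n : ℕ} {A B : Set (EuclideanSpace ℝ (Fin n))} {δ : ℝ} {N M : ℕ}
    (h : Covers δ A N) (h' : Covers δ B M) : Covers δ (A ∪ B) (N + M) := by
  obtain ⟨U, h1, h2⟩ := h
  obtain ⟨U', h1', h2'⟩ := h'
  refine ⟨Fin.append U U', ?_, ?_⟩
  · intro i
    refine Fin.addCases (fun i => ?_) (fun i => ?_) i
    · rw [Fin.append_left]; exact h1 i
    · rw [Fin.append_right]; exact h1' i
  · intro x hx
    rw [Set.mem_iUnion]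
    rcases hx with hx | hx
    · obtain ⟨i, hi⟩ := Set.mem_iUnion.mp (h2 hx)
      exact ⟨Fin.castAdd M i, by rw [Fin.append_left]; exact hi⟩
    · obtain ⟨i, hi⟩ := Set.mem_iUnion.mp (h2' hx)
      exact ⟨Fin.natAdd N i, by rw [Fin.append_right]; exact hi⟩

theorem coverNum_union {n : ℕ} {A B : Set (EuclideanSpace ℝ (Fin n))} (hA : Bornology.IsBounded A)
    (hB : Bornology.IsBounded B) {δ : ℝ} (hδ : 0 < δ) :
    coverNum (A ∪ B) δ ≤ coverNum A δ + coverNum B δ :=
  coverNum_le ((covers_coverNum hA hδ).union (covers_coverNum hB hδ))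

/-! ### Logarithms -/

theorem log_nat_nonneg (N : ℕ) : 0 ≤ Real.log N := Real.log_natCast_nonneg N

/-- the logarithmic ratio -/
noncomputable def ratio {n : ℕ} (B : Set (EuclideanSpace ℝ (Fin n))) (δ : ℝ) : ℝ :=
  Real.log (coverNum B δ) / Real.log (1 / δ)

theorem upper_eq {n : ℕ} (B : Set (EuclideanSpace ℝ (Fin n))) :
    upperMinkowski B = limsup (fun δ : ℝ => ((ratio B δ : ℝ) : EReal)) (𝓝[>] 0) := rfl

theorem lower_eq {n : ℕ} (B : Set (EuclideanSpace ℝ (Fin n))) :
    lowerMinkowski B = liminf (fun δ : ℝ => ((ratio B δ : ℝ) : EReal)) (𝓝[>] 0) := rfl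

theorem small : ∀ᶠ δ : ℝ in 𝓝[>] (0 : ℝ), 0 < δ ∧ δ < 1 := Ioo_mem_nhdsGT one_pos

theorem log_large (L : ℝ) : ∀ᶠ δ : ℝ in 𝓝[>] (0 : ℝ), L < Real.log (1 / δ) := by
  have hlog : Tendsto Real.log (𝓝[>] 0) atBot := Real.tendsto_log_nhdsGT_zero
  filter_upwards [hlog.eventually (eventually_lt_atBot (-L))] with δ h
  rw [one_div, Real.log_inv]
  linarith

theorem ratio_nonneg {n : ℕ} (B : Set (EuclideanSpace ℝ (Fin n))) {δ : ℝ} (h : 0 < δ ∧ δ < 1) :
    0 ≤ ratio B δ := by
  refine div_nonneg (log_nat_nonneg _) ?_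
  rw [one_div, Real.log_inv]
  have := Real.log_nonpos h.1.le h.2.le
  linarith

theorem mul_bound {x y : EReal} {c : ℝ} (hc : 0 < c) (h : ∀ s : ℝ, x < s → y ≤ ((c * s : ℝ) : EReal)) :
    y ≤ (c : EReal) * x := by
  induction x with
  | bot =>
    rw [EReal.coe_mul_bot_of_pos hc]
    refine le_of_forall_gt fun z hz => ?_
    obtain ⟨w, hw1, hw2⟩ := EReal.lt_iff_exists_real_btwn.mp hz
    refine lt_of_le_of_lt (h ((w - 1) / c) (EReal.bot_lt_coe _)) (lt_trans ?_ hw2)
    rw [mul_div_cancel₀ _ hc.ne']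
    exact_mod_cast (by linarith : w - 1 < w)
  | top => rw [EReal.coe_mul_top_of_pos hc]; exact le_top
  | coe x =>
    rw [← EReal.coe_mul]
    refine le_of_forall_gt fun z hz => ?_
    obtain ⟨w, hw1, hw2⟩ := EReal.lt_iff_exists_real_btwn.mp hz
    have hw1' : c * x < w := by exact_mod_cast hw1
    refine lt_of_le_of_lt (h (w / c) ?_) ?_
    · have : x < w / c := by rw [lt_div_iff₀ hc]; linarith
      exact_mod_cast this
    · rw [mul_div_cancel₀ _ hc.ne']; exact hw2

/-- Comparison of the logarithmic ratios. -/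
theorem ratio_le {n : ℕ} {R B : Set (EuclideanSpace ℝ (Fin n))} {c C : ℝ} (hc : 0 < c) (hC : 0 < C)
    (hRB : ∀ δ : ℝ, 0 < δ → (coverNum R δ : ℝ) ≤ C * (coverNum B δ : ℝ) ^ c) {ε : ℝ} (hε : 0 < ε) :
    ∀ᶠ δ : ℝ in 𝓝[>] (0 : ℝ), ratio R δ ≤ c * ratio B δ + ε := by
  filter_upwards [small, log_large (|Real.log C| / ε + 1)] with δ h1 h2
  have h0 : 0 ≤ |Real.log C| / ε := by positivity
  have hL : 0 < Real.log (1 / δ) := by linarith
  have hr := ratio_nonneg B h1
  rcases Nat.eq_zero_or_pos (coverNum R δ) with hz | hz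
  · unfold ratio at *
    rw [hz, Nat.cast_zero, Real.log_zero, zero_div]
    positivity
  · have hB : 0 < coverNum B δ := by
      rcases Nat.eq_zero_or_pos (coverNum B δ) with h | h
      · have h3 := hRB δ h1.1
        rw [h, Nat.cast_zero, Real.zero_rpow hc.ne', mul_zero] at h3
        have : (0 : ℝ) < coverNum R δ := by exact_mod_cast hz
        linarith
      · exact h
    have hB' : (0 : ℝ) < coverNum B δ := by exact_mod_cast hB
    have h3 := Real.log_le_log (by exact_mod_cast hz) (hRB δ h1.1)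
    rw [Real.log_mul hC.ne' (by positivity), Real.log_rpow hB'] at h3
    have h4 : Real.log C ≤ ε * Real.log (1 / δ) := by
      have h5 : |Real.log C| / ε ≤ Real.log (1 / δ) := by linarith
      rw [div_le_iff₀ hε] at h5
      have := le_abs_self (Real.log C)
      linarith
    unfold ratio
    rw [div_le_iff₀ hL]
    calc Real.log (coverNum R δ) ≤ Real.log C + c * Real.log (coverNum B δ) := h3
      _ ≤ ε * Real.log (1 / δ) + c * Real.log (coverNum B δ) := by linarith
      _ = (c * (Real.log (coverNum B δ) / Real.log (1 / δ)) + ε) * Real.log (1 / δ) := by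
        have e : Real.log (coverNum B δ) / Real.log (1 / δ) * Real.log (1 / δ)
            = Real.log (coverNum B δ) := div_mul_cancel₀ _ hL.ne'
        rw [add_mul, mul_assoc, e]
        ring

theorem upper_le {n : ℕ} {R B : Set (EuclideanSpace ℝ (Fin n))} {c C : ℝ} (hc : 0 < c) (hC : 0 < C)
    (hRB : ∀ δ : ℝ, 0 < δ → (coverNum R δ : ℝ) ≤ C * (coverNum B δ : ℝ) ^ c) :
    upperMinkowski R ≤ (c : EReal) * upperMinkowski B := by
  refine mul_bound hc fun s hs => ?_
  rw [upper_eq] at hs ⊢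
  have hs' : ∀ᶠ δ : ℝ in 𝓝[>] (0 : ℝ), ((ratio B δ : ℝ) : EReal) < s :=
    eventually_lt_of_limsup_lt hs (by isBoundedDefault)
  refine le_of_forall_gt fun z hz => ?_
  obtain ⟨w, hw1, hw2⟩ := EReal.lt_iff_exists_real_btwn.mp hz
  have hw1' : c * s < w := by exact_mod_cast hw1
  refine lt_of_le_of_lt (limsup_le_of_le (by isBoundedDefault) ?_) hw2
  filter_upwards [hs', ratio_le hc hC hRB (sub_pos.mpr hw1')] with δ h1 h2
  have h1' : ratio B δ < s := by exact_mod_cast h1
  have h3 : ratio R δ ≤ w := by nlinarith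
  exact_mod_cast h3

theorem lower_le {n : ℕ} {R B : Set (EuclideanSpace ℝ (Fin n))} {c C : ℝ} (hc : 0 < c) (hC : 0 < C)
    (hRB : ∀ δ : ℝ, 0 < δ → (coverNum R δ : ℝ) ≤ C * (coverNum B δ : ℝ) ^ c) :
    lowerMinkowski R ≤ (c : EReal) * lowerMinkowski B := by
  refine mul_bound hc fun s hs => ?_
  rw [lower_eq] at hs ⊢
  have hs' : ∃ᶠ δ : ℝ in 𝓝[>] (0 : ℝ), ((ratio B δ : ℝ) : EReal) < s :=
    frequently_lt_of_liminf_lt (by isBoundedDefault) hs
  refine le_of_forall_gt fun z hz => ?_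
  obtain ⟨w, hw1, hw2⟩ := EReal.lt_iff_exists_real_btwn.mp hz
  have hw1' : c * s < w := by exact_mod_cast hw1
  refine lt_of_le_of_lt (liminf_le_of_frequently_le ?_ (by isBoundedDefault)) hw2
  refine (hs'.and_eventually (ratio_le hc hC hRB (sub_pos.mpr hw1'))).mono fun δ h => ?_
  obtain ⟨h1, h2⟩ := h
  have h1' : ratio B δ < s := by exact_mod_cast h1
  have h3 : ratio R δ ≤ w := by nlinarith
  exact_mod_cast h3

theorem upper_mono {n : ℕ} {A B : Set (EuclideanSpace ℝ (Fin n))} (hB : Bornology.IsBounded B)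
    (hAB : A ⊆ B) : upperMinkowski A ≤ upperMinkowski B := by
  have h := upper_le (c := 1) (C := 1) (R := A) (B := B) one_pos one_pos (fun δ hδ => by
    rw [Real.rpow_one, one_mul]
    exact_mod_cast coverNum_mono hB hAB hδ)
  simpa using h

/-- The upper Minkowski dimension of a union. -/
theorem upper_union {n : ℕ} {A B : Set (EuclideanSpace ℝ (Fin n))} (hA : Bornology.IsBounded A)
    (hB : Bornology.IsBounded B) : upperMinkowski (A ∪ B) ≤ upperMinkowski A ⊔ upperMinkowski B := by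
  refine le_of_forall_gt fun z hz => ?_
  obtain ⟨w, hw1, hw2⟩ := EReal.lt_iff_exists_real_btwn.mp hz
  obtain ⟨v, hv1, hv2⟩ := EReal.lt_iff_exists_real_btwn.mp hw1
  have hvw : v < w := by exact_mod_cast hv2
  have h1 : ∀ᶠ δ : ℝ in 𝓝[>] (0 : ℝ), ((ratio A δ : ℝ) : EReal) < v :=
    eventually_lt_of_limsup_lt (lt_of_le_of_lt le_sup_left hv1) (by isBoundedDefault)
  have h2 : ∀ᶠ δ : ℝ in 𝓝[>] (0 : ℝ), ((ratio B δ : ℝ) : EReal) < v :=
    eventually_lt_of_limsup_lt (lt_of_le_of_lt le_sup_right hv1) (by isBoundedDefault)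
  refine lt_of_le_of_lt (limsup_le_of_le (by isBoundedDefault) ?_) hw2
  filter_upwards [h1, h2, small, log_large (Real.log 2 / (w - v) + 1)] with δ h1 h2 h3 h4
  have h1' : ratio A δ < v := by exact_mod_cast h1
  have h2' : ratio B δ < v := by exact_mod_cast h2
  have h0 : 0 < Real.log 2 / (w - v) := div_pos (Real.log_pos (by norm_num)) (by linarith)
  have hL : 0 < Real.log (1 / δ) := by linarith
  have hl2 : Real.log 2 ≤ (w - v) * Real.log (1 / δ) := by
    have h5 : Real.log 2 / (w - v) ≤ Real.log (1 / δ) := by linarith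
    rw [div_le_iff₀ (by linarith)] at h5
    linarith
  have hv0 : 0 ≤ v := (ratio_nonneg A h3).trans h1'.le
  have key : ratio (A ∪ B) δ ≤ w := by
    unfold ratio at *
    rw [div_le_iff₀ hL]
    rw [div_lt_iff₀ hL] at h1' h2'
    have h6 := coverNum_union hA hB h3.1
    rcases Nat.eq_zero_or_pos (coverNum (A ∪ B) δ) with hz | hz
    · have e : Real.log ((coverNum (A ∪ B) δ : ℕ) : ℝ) = 0 := by rw [hz]; simp
      rw [e]
      nlinarith
    · have h7 : (coverNum (A ∪ B) δ : ℝ) ≤ 2 * max (coverNum A δ : ℝ) (coverNum B δ) := by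
        have : (coverNum (A ∪ B) δ : ℝ) ≤ coverNum A δ + coverNum B δ := by exact_mod_cast h6
        have := le_max_left (coverNum A δ : ℝ) (coverNum B δ)
        have := le_max_right (coverNum A δ : ℝ) (coverNum B δ)
        linarith
      have hz' : (0 : ℝ) < coverNum (A ∪ B) δ := by exact_mod_cast hz
      have hmax : 0 < max (coverNum A δ : ℝ) (coverNum B δ) := by linarith
      have h8 := Real.log_le_log hz' h7
      rw [Real.log_mul (by norm_num) hmax.ne'] at h8
      have h9 : Real.log (max (coverNum A δ : ℝ) (coverNum B δ)) ≤ v * Real.log (1 / δ) := by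
        rcases max_choice (coverNum A δ : ℝ) (coverNum B δ) with e | e <;> rw [e]
        · exact h1'.le
        · exact h2'.le
      nlinarith
  exact_mod_cast key

theorem upper_nonneg {n : ℕ} (B : Set (EuclideanSpace ℝ (Fin n))) : 0 ≤ upperMinkowski B := by
  rw [upper_eq]
  refine le_limsup_of_frequently_le (Eventually.frequently ?_) (by isBoundedDefault)
  filter_upwards [small] with δ h
  exact_mod_cast ratio_nonneg B h

/-- Finite unions. -/
theorem upper_accum {n : ℕ} (A : ℕ → Set (EuclideanSpace ℝ (Fin n)))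
    (hA : ∀ i, Bornology.IsBounded (A i)) (j : ℕ) :
    Bornology.IsBounded (⋃ i ∈ Finset.range j, A i) ∧
      upperMinkowski (⋃ i ∈ Finset.range j, A i) ≤ ⨆ i, upperMinkowski (A i) := by
  induction j with
  | zero =>
    refine ⟨by simp, ?_⟩
    have h1 : upperMinkowski (∅ : Set (EuclideanSpace ℝ (Fin n))) ≤ upperMinkowski (A 0) :=
      upper_mono (hA 0) (Set.empty_subset _)
    simp only [Finset.range_zero, Finset.notMem_empty, Set.iUnion_of_empty, Set.iUnion_empty]
    exact h1.trans (le_iSup (fun i => upperMinkowski (A i)) 0)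
  | succ j ih =>
    have e : (⋃ i ∈ Finset.range (j + 1), A i) = (⋃ i ∈ Finset.range j, A i) ∪ A j := by
      ext x
      simp only [Set.mem_iUnion, Finset.mem_range, Set.mem_union, exists_prop]
      constructor
      · rintro ⟨i, hi, hx⟩
        rcases Nat.lt_succ_iff_lt_or_eq.mp hi with h | h
        · exact Or.inl ⟨i, h, hx⟩
        · exact Or.inr (h ▸ hx)
      · rintro (⟨i, hi, hx⟩ | hx)
        · exact ⟨i, by omega, hx⟩
        · exact ⟨j, by omega, hx⟩
    rw [e]
    refine ⟨ih.1.union (hA j), (upper_union ih.1 (hA j)).trans (sup_le ih.2 ?_)⟩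
    exact le_iSup (fun i => upperMinkowski (A i)) j

end Pool.Agent.Q261.AP
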