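import Pool.Agent.Q261.AP.Dim

/-!
# Progressions with common differences in an arbitrary set: packing dimension, outer measure
-/

set_option autoImplicit false

open Finset Filter Topology MeasureTheory

namespace Pool.Agent.Q261.AP

open Pool.Agent.W46.KK

theorem Prog.bounded {n k : ℕ} (hk : 2 ≤ k) {R B : Set (EuclideanSpace ℝ (Fin n))}
    (h : Prog k R B) (hB : Bornology.IsBounded B) : Bornology.IsBounded R := by
  obtain ⟨M, hM⟩ := Metric.isBounded_iff.mp hB
  refine (Metric.isBounded_iff_subset_closedBall 0).mpr ⟨M, fun r hr => ?_⟩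
  obtain ⟨a, ha⟩ := h r hr
  have h0 := ha 0 (by omega)
  have h1 := ha 1 (by omega)
  have h2 := hM h1 h0
  rw [dist_eq_norm] at h2
  simp only [Nat.cast_one, one_smul, Nat.cast_zero, zero_smul, add_zero] at h2
  rw [mem_closedBall_zero_iff]
  simpa using h2

/-- the property of the threshold `k` -/
def Good (c : ℝ) (k : ℕ) : Prop :=
  2 ≤ k ∧ ∀ n : ℕ, ∃ C : ℝ, 0 < C ∧ ∀ R B : Set (EuclideanSpace ℝ (Fin n)), Prog k R B →
      ∀ δ : ℝ, 0 < δ → ∀ N : ℕ, Covers δ B N →
        ∃ M : ℕ, Covers δ R M ∧ (M : ℝ) ≤ C * (N : ℝ) ^ c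

theorem good_num {c : ℝ} {k : ℕ} (h : Good c k) (n : ℕ) : ∃ C : ℝ, 0 < C ∧
    ∀ R B : Set (EuclideanSpace ℝ (Fin n)), Prog k R B → Bornology.IsBounded B →
      ∀ δ : ℝ, 0 < δ → (coverNum R δ : ℝ) ≤ C * (coverNum B δ : ℝ) ^ c := by
  obtain ⟨C, hC, hcov⟩ := h.2 n
  refine ⟨C, hC, fun R B hP hB δ hδ => ?_⟩
  obtain ⟨M, hM, hMC⟩ := hcov R B hP δ hδ _ (covers_coverNum hB hδ)
  refine le_trans ?_ hMC
  exact_mod_cast coverNum_le hM

theorem good_upper {c : ℝ} (hc : 0 < c) {k : ℕ} (h : Good c k) {n : ℕ}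
    {R B : Set (EuclideanSpace ℝ (Fin n))} (hP : Prog k R B) (hB : Bornology.IsBounded B) :
    upperMinkowski R ≤ (c : EReal) * upperMinkowski B := by
  obtain ⟨C, hC, hcov⟩ := good_num h n
  exact upper_le hc hC (hcov R B hP hB)

theorem good_lower {c : ℝ} (hc : 0 < c) {k : ℕ} (h : Good c k) {n : ℕ}
    {R B : Set (EuclideanSpace ℝ (Fin n))} (hP : Prog k R B) (hB : Bornology.IsBounded B) :
    lowerMinkowski R ≤ (c : EReal) * lowerMinkowski B := by
  obtain ⟨C, hC, hcov⟩ := good_num h n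
  exact lower_le hc hC (hcov R B hP hB)

theorem good_packing {c : ℝ} (hc : 0 < c) {k : ℕ} (hg : Good c k) {n : ℕ}
    {R B : Set (EuclideanSpace ℝ (Fin n))} (hP : Prog k R B) :
    packingDim R ≤ (c : EReal) * packingDim B := by
  classical
  refine mul_bound hc fun s hs => ?_
  unfold packingDim at hs
  simp only [iInf_lt_iff] at hs
  obtain ⟨A, hA, hBA, hs⟩ := hs
  set B' : ℕ → Set (EuclideanSpace ℝ (Fin n)) := fun j => ⋃ i ∈ Finset.range j, A i with hB'
  set R' : ℕ → Set (EuclideanSpace ℝ (Fin n)) := fun j =>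
    {r | r ∈ R ∧ ∃ a : EuclideanSpace ℝ (Fin n), ∀ i : ℕ, i < k → a + (i : ℝ) • r ∈ B' j} with hR'
  have hPj : ∀ j, Prog k (R' j) (B' j) := fun j r hr => hr.2
  have hbd : ∀ j, Bornology.IsBounded (B' j) := fun j => (upper_accum A hA j).1
  have hcovR : R ⊆ ⋃ j, R' j := by
    intro r hr
    obtain ⟨a, ha⟩ := hP r hr
    have hex : ∀ i : ℕ, ∃ m : ℕ, i < k → a + (i : ℝ) • r ∈ A m := by
      intro i
      by_cases hi : i < k
      · obtain ⟨m, hm⟩ := Set.mem_iUnion.mp (hBA (ha i hi))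
        exact ⟨m, fun _ => hm⟩
      · exact ⟨0, fun h => absurd h hi⟩
    choose f hf using hex
    refine Set.mem_iUnion.mpr ⟨(Finset.range k).sup f + 1, hr, a, fun i hi => ?_⟩
    exact Set.mem_iUnion₂.mpr ⟨f i, Finset.mem_range.mpr (Nat.lt_succ_of_le
      (Finset.le_sup (f := f) (Finset.mem_range.mpr hi))), hf i hi⟩
  have h1 : packingDim R ≤ ⨆ j, upperMinkowski (R' j) :=
    iInf_le_of_le R' (iInf_le_of_le (fun j => (hPj j).bounded hg.1 (hbd j))
      (iInf_le_of_le hcovR le_rfl))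
  refine h1.trans (iSup_le fun j => ?_)
  refine (good_upper hc hg (hPj j) (hbd j)).trans ?_
  rw [EReal.coe_mul]
  refine mul_le_mul_of_nonneg_left ?_ (by exact_mod_cast hc.le)
  exact ((upper_accum A hA j).2.trans hs.le)

/-! ### Sets of positive outer measure -/

theorem volume_le_covers {n : ℕ} {A : Set (EuclideanSpace ℝ (Fin n))} {δ : ℝ} (hδ : 0 < δ) {N : ℕ}
    (h : Covers δ A N) : volume A ≤ (N : ENNReal) * (ENNReal.ofReal (δ ^ n) *
      volume (Metric.ball (0 : EuclideanSpace ℝ (Fin n)) 1)) := by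
  obtain ⟨U, h1, h2⟩ := h
  calc volume A ≤ volume (⋃ i, U i) := measure_mono h2
    _ ≤ ∑ i, volume (U i) := measure_iUnion_fintype_le _ _
    _ ≤ ∑ _i : Fin N, (ENNReal.ofReal (δ ^ n) *
      volume (Metric.ball (0 : EuclideanSpace ℝ (Fin n)) 1)) := by
        refine Finset.sum_le_sum fun i _ => ?_
        rcases (U i).eq_empty_or_nonempty with he | ⟨x, hx⟩
        · rw [he]; simp
        · have h3 : U i ⊆ Metric.closedBall x δ := fun y hy => h1 i y hy x hx
          refine (measure_mono h3).trans (le_of_eq ?_)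
          rw [Measure.addHaar_closedBall _ _ hδ.le]
          simp
    _ = _ := by simp

theorem volume_lower {n : ℕ} {A : Set (EuclideanSpace ℝ (Fin n))} (hA : Bornology.IsBounded A)
    (hv : volume A ≠ 0) : ((n : ℝ) : EReal) ≤ lowerMinkowski A := by
  have hfin : volume A ≠ ⊤ := hA.measure_lt_top.ne
  set v : ℝ := (volume A).toReal with hvdef
  have hvpos : 0 < v := ENNReal.toReal_pos hv hfin
  set β : ℝ := (volume (Metric.ball (0 : EuclideanSpace ℝ (Fin n)) 1)).toReal with hβdef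
  have hβfin : volume (Metric.ball (0 : EuclideanSpace ℝ (Fin n)) 1) ≠ ⊤ := measure_ball_lt_top.ne
  have hβpos : 0 < β := ENNReal.toReal_pos (Metric.measure_ball_pos volume _ one_pos).ne' hβfin
  rw [lower_eq]
  refine le_of_forall_lt fun z hz => ?_
  obtain ⟨w, hw1, hw2⟩ := EReal.lt_iff_exists_real_btwn.mp hz
  have hw2' : w < n := by exact_mod_cast hw2
  refine lt_of_lt_of_le hw1 (le_liminf_of_le (by isBoundedDefault) ?_)
  filter_upwards [small, log_large (|Real.log (v / β)| / (n - w) + 1)] with δ h1 h2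
  have h0 : 0 ≤ |Real.log (v / β)| / (n - w) := div_nonneg (abs_nonneg _) (by linarith)
  have hL : 0 < Real.log (1 / δ) := by linarith
  have hcov := volume_le_covers h1.1 (covers_coverNum hA h1.1)
  have hreal : v ≤ (coverNum A δ : ℝ) * (δ ^ n * β) := by
    have h3 := (ENNReal.toReal_le_toReal hfin (by
      refine ENNReal.mul_ne_top (ENNReal.natCast_ne_top _) (ENNReal.mul_ne_top ENNReal.ofReal_ne_top hβfin))).mpr hcov
    rw [ENNReal.toReal_mul, ENNReal.toReal_mul, ENNReal.toReal_ofReal (pow_nonneg h1.1.le n),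
      ENNReal.toReal_natCast] at h3
    exact h3
  have hNpos : (0 : ℝ) < coverNum A δ := by
    rcases Nat.eq_zero_or_pos (coverNum A δ) with h | h
    · rw [h] at hreal
      simp only [Nat.cast_zero, zero_mul] at hreal
      linarith
    · exact_mod_cast h
  have hge : v / β * (1 / δ) ^ n ≤ (coverNum A δ : ℝ) := by
    have hδn : 0 < δ ^ n := pow_pos h1.1 n
    rw [one_div, inv_pow, ← div_eq_mul_inv, div_div, div_le_iff₀ (by positivity)]
    calc v ≤ (coverNum A δ : ℝ) * (δ ^ n * β) := hreal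
      _ = _ := by ring
  have hδi : 0 < 1 / δ := one_div_pos.mpr h1.1
  have hlog := Real.log_le_log (by positivity) hge
  rw [Real.log_mul (by positivity) (by positivity), Real.log_pow] at hlog
  have h4 : -Real.log (v / β) ≤ (n - w) * Real.log (1 / δ) := by
    have h5 : |Real.log (v / β)| / (n - w) ≤ Real.log (1 / δ) := by linarith
    rw [div_le_iff₀ (by linarith)] at h5
    have := neg_le_abs (Real.log (v / β))
    linarith
  have key : w ≤ ratio A δ := by
    unfold ratio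
    rw [le_div_iff₀ hL]
    linarith
  exact_mod_cast key

theorem lower_le_upper {n : ℕ} (A : Set (EuclideanSpace ℝ (Fin n))) :
    lowerMinkowski A ≤ upperMinkowski A := by
  rw [lower_eq, upper_eq]
  exact liminf_le_limsup (by isBoundedDefault) (by isBoundedDefault)

theorem volume_packing {n : ℕ} {R : Set (EuclideanSpace ℝ (Fin n))} (hv : volume R ≠ 0) :
    ((n : ℝ) : EReal) ≤ packingDim R := by
  refine le_iInf fun A => le_iInf fun hA => le_iInf fun hcov => ?_
  obtain ⟨i, hi⟩ : ∃ i, volume (A i) ≠ 0 := by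
    by_contra hcon
    push Not at hcon
    exact hv (measure_mono_null hcov (measure_iUnion_null hcon))
  exact (volume_lower (hA i) hi).trans ((lower_le_upper _).trans
    (le_iSup (fun i => upperMinkowski (A i)) i))

theorem div_of_le_mul {x c : ℝ} (hc : 0 < c) {y : EReal} (h : (x : EReal) ≤ (c : EReal) * y) :
    ((x / c : ℝ) : EReal) ≤ y := by
  induction y with
  | bot =>
    rw [EReal.coe_mul_bot_of_pos hc] at h
    exact absurd h (not_le.mpr (EReal.bot_lt_coe _))
  | top => exact le_top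
  | coe y =>
    rw [← EReal.coe_mul] at h
    have h' : x ≤ c * y := by exact_mod_cast h
    have : x / c ≤ y := by rw [div_le_iff₀ hc]; linarith
    exact_mod_cast this

/-- the least packing dimension -/
noncomputable def fP (n k : ℕ) : EReal :=
  ⨅ (B : Set (EuclideanSpace ℝ (Fin n))) (_ : Bornology.IsBounded B) (_ : HasProgressions k B),
    packingDim B

theorem cube_volume (n : ℕ) :
    volume {r : EuclideanSpace ℝ (Fin n) | ∀ i, r i ∈ Set.Icc (0 : ℝ) 1} ≠ 0 := by
  have hsub : {r : EuclideanSpace ℝ (Fin n) | ∀ i, r i ∈ Set.Ioo (0 : ℝ) 1} ⊆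
      {r : EuclideanSpace ℝ (Fin n) | ∀ i, r i ∈ Set.Icc (0 : ℝ) 1} :=
    fun r hr i => Set.Ioo_subset_Icc_self (hr i)
  have hopen : IsOpen {r : EuclideanSpace ℝ (Fin n) | ∀ i, r i ∈ Set.Ioo (0 : ℝ) 1} := by
    have : {r : EuclideanSpace ℝ (Fin n) | ∀ i, r i ∈ Set.Ioo (0 : ℝ) 1} =
        ⋂ i, {r : EuclideanSpace ℝ (Fin n) | r i ∈ Set.Ioo (0 : ℝ) 1} := by
      ext r; simp
    rw [this]
    exact isOpen_iInter_of_finite fun i => isOpen_Ioo.preimage (by fun_prop)
  have hne : {r : EuclideanSpace ℝ (Fin n) | ∀ i, r i ∈ Set.Ioo (0 : ℝ) 1}.Nonempty :=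
    ⟨WithLp.toLp 2 (fun _ => 1 / 2), fun i => by norm_num⟩
  exact ne_of_gt (lt_of_lt_of_le (hopen.measure_pos volume hne) (measure_mono hsub))

theorem Good.mono {c : ℝ} {k k' : ℕ} (h : Good c k) (hk : k ≤ k') : Good c k' := by
  refine ⟨h.1.trans hk, fun n => ?_⟩
  obtain ⟨C, hC, hcov⟩ := h.2 n
  exact ⟨C, hC, fun R B hP => hcov R B fun r hr => by
    obtain ⟨a, ha⟩ := hP r hr
    exact ⟨a, fun j hj => ha j (lt_of_lt_of_le hj hk)⟩⟩

theorem good_volume {c : ℝ} (hc : 0 < c) {k : ℕ} (hg : Good c k) {n : ℕ}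
    {R B : Set (EuclideanSpace ℝ (Fin n))} (hP : Prog k R B) (hv : volume R ≠ 0) :
    (((n : ℝ) / c : ℝ) : EReal) ≤ packingDim B :=
  div_of_le_mul hc ((volume_packing hv).trans (good_packing hc hg hP))

theorem good_volume_lower {c : ℝ} (hc : 0 < c) {k : ℕ} (hg : Good c k) {n : ℕ}
    {R B : Set (EuclideanSpace ℝ (Fin n))} (hP : Prog k R B) (hB : Bornology.IsBounded B)
    (hv : volume R ≠ 0) : (((n : ℝ) / c : ℝ) : EReal) ≤ lowerMinkowski B :=
  div_of_le_mul hc ((volume_lower (hP.bounded hg.1 hB) hv).trans (good_lower hc hg hP hB))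

theorem good_fP {c : ℝ} (hc : 0 < c) {k : ℕ} (hg : Good c k) (n : ℕ) :
    (((n : ℝ) / c : ℝ) : EReal) ≤ fP n k :=
  le_iInf fun _ => le_iInf fun _ => le_iInf fun hP => good_volume hc hg
    (R := {r : EuclideanSpace ℝ (Fin n) | ∀ i, r i ∈ Set.Icc (0 : ℝ) 1}) (fun r hr => hP r hr)
    (cube_volume n)

theorem good_fM {c : ℝ} (hc : 0 < c) {k : ℕ} (hg : Good c k) (n : ℕ) :
    (((n : ℝ) / c : ℝ) : EReal) ≤ fM n k :=
  le_iInf fun _ => le_iInf fun hB => le_iInf fun hP => (good_volume_lower hc hg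
    (R := {r : EuclideanSpace ℝ (Fin n) | ∀ i, r i ∈ Set.Icc (0 : ℝ) 1}) (fun r hr => hP r hr) hB
    (cube_volume n)).trans (lower_le_upper _)

end Pool.Agent.Q261.AP
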